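import Mathlib

/-! In the punctured plane the Dehn twist is a uniform limit of symplectomorphisms that are
isotopic to the identity with compact support, but it is not itself isotopic to the identity. -/

namespace Pool.Agent.Results.MP_2dff6e_gt.Twist

open Set Filter Topology Complex
open scoped ContDiff

/-- the punctured plane -/
def M : Set ℂ := {z | z ≠ 0}

/-- the standard area form `dx ∧ dy` -/
def om (u v : ℂ) : ℝ := u.re * v.im - u.im * v.re

/-- `φ` restricts to a smooth symplectic diffeomorphism of `M` -/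
def Symp (φ : ℂ → ℂ) : Prop :=
  ContDiffOn ℝ ∞ φ M ∧ MapsTo φ M M ∧
    (∃ ψ : ℂ → ℂ, ContDiffOn ℝ ∞ ψ M ∧ MapsTo ψ M M ∧ InvOn ψ φ M M) ∧
    ∀ z ∈ M, ∀ u v, om (fderiv ℝ φ z u) (fderiv ℝ φ z v) = om u v

/-- `φ` fixes the points of `M` outside `K` -/
def SuppIn (φ : ℂ → ℂ) (K : Set ℂ) : Prop := ∀ z ∈ M, z ∉ K → φ z = z

/-- membership in `Symp_c(M)` -/
def SympC (φ : ℂ → ℂ) : Prop := Symp φ ∧ ∃ K, IsCompact K ∧ K ⊆ M ∧ SuppIn φ K

/-- membership in `Symp_{c,0}(M)` -/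
def SympC0 (φ : ℂ → ℂ) : Prop :=
  ∃ (Φ : ℝ → ℂ → ℂ) (K : Set ℂ), IsCompact K ∧ K ⊆ M ∧
    ContDiffOn ℝ ∞ (fun p : ℝ × ℂ => Φ p.1 p.2) (Icc 0 1 ×ˢ M) ∧
    (∀ s ∈ Icc (0 : ℝ) 1, Symp (Φ s) ∧ SuppIn (Φ s) K) ∧ EqOn (Φ 0) id M ∧ EqOn (Φ 1) φ M

/-- rotation by the angle `β (|z|²)` -/
noncomputable def tw (β : ℝ → ℝ) (z : ℂ) : ℂ := exp (I * (β (normSq z) : ℂ)) * z

theorem normSq_smooth : ContDiff ℝ ∞ fun z : ℂ => normSq z := by
  have : (fun z : ℂ => normSq z) = fun z : ℂ => reCLM z * reCLM z + imCLM z * imCLM z := by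
    ext z; simp [normSq_apply]
  rw [this]
  exact (reCLM.contDiff.mul reCLM.contDiff).add (imCLM.contDiff.mul imCLM.contDiff)

theorem normSq_rot (t : ℝ) : normSq (exp (I * (t : ℂ))) = 1 := by
  rw [normSq_eq_norm_sq, mul_comm, norm_exp_ofReal_mul_I]; norm_num

theorem normSq_tw (β : ℝ → ℝ) (z : ℂ) : normSq (tw β z) = normSq z := by
  rw [tw, normSq_mul, normSq_rot, one_mul]

theorem tw_smooth {β : ℝ → ℝ} (h : ContDiff ℝ ∞ β) : ContDiff ℝ ∞ (tw β) :=
  ((contDiff_const.mul (ofRealCLM.contDiff.comp (h.comp normSq_smooth))).cexp).mul contDiff_id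

theorem tw_maps (β : ℝ → ℝ) : MapsTo (tw β) M M := fun _ hz => mul_ne_zero (exp_ne_zero _) hz

theorem tw_inv (β : ℝ → ℝ) (z : ℂ) : tw (fun t => -β t) (tw β z) = z := by
  rw [tw, normSq_tw, tw, ← mul_assoc, ← exp_add]; simp

theorem tw_inv' (β : ℝ → ℝ) (z : ℂ) : tw β (tw (fun t => -β t) z) = z := by
  rw [tw, normSq_tw, tw, ← mul_assoc, ← exp_add]; simp

theorem om_mul (E a b : ℂ) : om (E * a) (E * b) = normSq E * om a b := by
  simp only [om, mul_re, mul_im, normSq_apply]; ring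

theorem tw_deriv {β : ℝ → ℝ} (h : ContDiff ℝ ∞ β) (z : ℂ) : ∃ c : ℝ, ∀ u : ℂ,
    fderiv ℝ (tw β) z u =
      exp (I * (β (normSq z) : ℂ)) * (u + I * ((c * (z.re * u.re + z.im * u.im) : ℝ) : ℂ) * z) := by
  have hN : HasFDerivAt (fun z : ℂ => normSq z)
      ((z.re • reCLM + z.re • reCLM) + (z.im • imCLM + z.im • imCLM)) z := by
    have : (fun z : ℂ => normSq z) = fun z : ℂ => reCLM z * reCLM z + imCLM z * imCLM z := by
      ext z; simp [normSq_apply]
    rw [this]
    exact (reCLM.hasFDerivAt.mul reCLM.hasFDerivAt).add (imCLM.hasFDerivAt.mul imCLM.hasFDerivAt)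
  have hβ : HasDerivAt β (deriv β (normSq z)) (normSq z) :=
    ((h.differentiable (by simp)) _).hasDerivAt
  have h1 := ((ofRealCLM.hasFDerivAt.comp z (hβ.comp_hasFDerivAt z hN)).const_mul I).cexp.mul
    (hasFDerivAt_id z)
  refine ⟨2 * deriv β (normSq z), fun u => ?_⟩
  have h2 : fderiv ℝ (tw β) z = _ := h1.fderiv
  rw [h2]
  simp
  ring

theorem tw_symp {β : ℝ → ℝ} (h : ContDiff ℝ ∞ β) : Symp (tw β) := by
  refine ⟨(tw_smooth h).contDiffOn, tw_maps β, ⟨tw fun t => -β t, (tw_smooth h.neg).contDiffOn,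
    tw_maps _, fun z _ => tw_inv β z, fun z _ => tw_inv' β z⟩, fun z _ u v => ?_⟩
  obtain ⟨c, hc⟩ := tw_deriv h z
  rw [hc, hc, om_mul, normSq_rot, one_mul]
  simp only [om, add_re, add_im, mul_re, mul_im, I_re, I_im, ofReal_re, ofReal_im]
  ring

theorem ann_compact (r R : ℝ) : IsCompact {z : ℂ | r ≤ normSq z ∧ normSq z ≤ R} := by
  refine Metric.isCompact_of_isClosed_isBounded
    ((isClosed_le continuous_const continuous_normSq).inter
      (isClosed_le continuous_normSq continuous_const))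
    ((Metric.isBounded_closedBall (x := (0 : ℂ)) (r := R + 1)).subset fun z hz => ?_)
  rw [mem_closedBall_zero_iff]
  have := hz.2
  rw [normSq_eq_norm_sq] at this
  nlinarith [norm_nonneg z]

theorem ann_sub {r : ℝ} (hr : 0 < r) (R : ℝ) : {z : ℂ | r ≤ normSq z ∧ normSq z ≤ R} ⊆ M := by
  rintro z hz rfl
  have := hz.1
  simp only [map_zero] at this
  linarith

/-- the angle function -/
noncomputable def th (t : ℝ) : ℝ := 2 * Real.pi * Real.smoothTransition (t - 1)

theorem th_smooth : ContDiff ℝ ∞ th :=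
  contDiff_const.mul (Real.smoothTransition.contDiff.comp (contDiff_id.sub contDiff_const))

theorem th_lo {t : ℝ} (h : t ≤ 1) : th t = 0 := by
  rw [th, Real.smoothTransition.zero_of_nonpos (by linarith), mul_zero]

theorem th_hi {t : ℝ} (h : 2 ≤ t) : th t = 2 * Real.pi := by
  rw [th, Real.smoothTransition.one_of_one_le (by linarith), mul_one]

theorem exp_two_pi : exp (I * ((2 * Real.pi : ℝ) : ℂ)) = 1 := by
  rw [← exp_two_pi_mul_I]; congr 1; push_cast; ring

theorem phi_mem : SympC (tw th) := by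
  refine ⟨tw_symp th_smooth, _, ann_compact 1 2, ann_sub one_pos 2, fun z _ hz => ?_⟩
  rcases not_and_or.1 hz with h | h
  · rw [tw, th_lo (not_le.1 h).le]; simp
  · rw [tw, th_hi (not_le.1 h).le, exp_two_pi, one_mul]

/-- the angle function of the approximating maps -/
noncomputable def be (n : ℕ) (t : ℝ) : ℝ := th t - th ((n + 1) * t)

theorem be_smooth (n : ℕ) : ContDiff ℝ ∞ (be n) :=
  th_smooth.sub (th_smooth.comp (contDiff_const.mul contDiff_id))

theorem be_zero (n : ℕ) {z : ℂ} (hz : z ∉ {z : ℂ | 1 / ((n : ℝ) + 1) ≤ normSq z ∧ normSq z ≤ 2}) :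
    be n (normSq z) = 0 := by
  have hn : (1 : ℝ) ≤ n + 1 := by linarith [(Nat.cast_nonneg n : (0 : ℝ) ≤ n)]
  have h0 := normSq_nonneg z
  rcases not_and_or.1 hz with h | h
  · have h := not_le.1 h
    rw [lt_div_iff₀ (by positivity)] at h
    rw [be, th_lo (by nlinarith), th_lo (by nlinarith), sub_zero]
  · have h := not_le.1 h
    rw [be, th_hi h.le, th_hi (by nlinarith), sub_self]

theorem psi_mem (n : ℕ) : SympC0 (tw (be n)) := by
  refine ⟨fun s => tw fun t => s * be n t, _, ann_compact (1 / (n + 1)) 2,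
    ann_sub (by positivity) 2, ?_, fun s _ => ⟨tw_symp (contDiff_const.mul (be_smooth n)), ?_⟩,
    fun z _ => by simp [tw], fun z _ => by simp [tw]⟩
  · refine ContDiff.contDiffOn ?_
    exact ((contDiff_const.mul (ofRealCLM.contDiff.comp (contDiff_fst.mul
      ((be_smooth n).comp (normSq_smooth.comp contDiff_snd))))).cexp).mul contDiff_snd
  · intro z _ hz
    simp [tw, be_zero n hz]

theorem psi_mem' (n : ℕ) : SympC (tw (be n)) :=
  ⟨tw_symp (be_smooth n), _, ann_compact (1 / (n + 1)) 2, ann_sub (by positivity) 2,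
    fun z _ hz => by simp [tw, be_zero n hz]⟩

theorem psi_lim : TendstoUniformlyOn (fun n => tw (be n)) (tw th) atTop M := by
  rw [Metric.tendstoUniformlyOn_iff]
  intro ε hε
  obtain ⟨N, hN⟩ := exists_nat_gt (8 / ε ^ 2)
  filter_upwards [eventually_ge_atTop N] with n hn z _
  have hn' : (N : ℝ) ≤ n := by exact_mod_cast hn
  rcases le_or_gt 2 ((n + 1) * normSq z) with h | h
  · have : tw (be n) z = tw th z := by
      rw [tw, tw, be, th_hi h, ofReal_sub, mul_sub, exp_sub, exp_two_pi, div_one]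
    rw [this, dist_self]; exact hε
  · have h1 : ‖tw th z‖ = ‖z‖ := by
      rw [norm_def, norm_def, normSq_tw]
    have h2 : ‖tw (be n) z‖ = ‖z‖ := by
      rw [norm_def, norm_def, normSq_tw]
    have h3 := norm_sub_le (tw th z) (tw (be n) z)
    rw [dist_eq_norm]
    rw [normSq_eq_norm_sq] at h
    rw [div_lt_iff₀ (by positivity)] at hN
    have h4 : (2 * ‖z‖) ^ 2 < ε ^ 2 := by
      by_contra h5
      have h5 := not_lt.1 h5
      have h6 : (0 : ℝ) ≤ N := Nat.cast_nonneg N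
      nlinarith [mul_le_mul_of_nonneg_left h5 h6, sq_nonneg ‖z‖]
    have h5 := lt_of_pow_lt_pow_left₀ 2 hε.le h4
    linarith

theorem lift_eq {g₁ g₂ : ℝ → ℂ} (h₁ : Continuous g₁) (h₂ : Continuous g₂)
    (he : ∀ t, exp (g₁ t) = exp (g₂ t)) (a : ℝ) (ha : g₁ a = g₂ a) : g₁ = g₂ :=
  isCoveringMap_exp.eq_of_comp_eq h₁ h₂ (funext fun t => Subtype.ext (he t)) a ha

theorem phi_not : ¬ SympC0 (tw th) := by
  rintro ⟨Φ, K, hK, hKM, hsm, hs, h0, h1⟩
  let pr : ℝ → ℝ := fun s => (projIcc (0 : ℝ) 1 zero_le_one s : ℝ)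
  have hpr : Continuous pr := continuous_subtype_val.comp continuous_projIcc
  have hpm : ∀ s, pr s ∈ Icc (0 : ℝ) 1 := fun s => (projIcc (0 : ℝ) 1 zero_le_one s).2
  let ra : ℝ → ℂ := fun t => (Real.exp t : ℂ)
  have hra : Continuous ra := continuous_ofReal.comp Real.continuous_exp
  have hrm : ∀ t, ra t ∈ M := fun t => ofReal_ne_zero.2 (Real.exp_pos t).ne'
  have hH : Continuous fun p : ℝ × ℝ => Φ (pr p.1) (ra p.2) / ra p.2 := by
    refine Continuous.div ?_ (hra.comp continuous_snd) fun p => hrm p.2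
    exact hsm.continuousOn.comp_continuous
      ((hpr.comp continuous_fst).prodMk (hra.comp continuous_snd)) fun p => ⟨hpm _, hrm _⟩
  have p0 : pr 0 = 0 := by simp [pr]
  have p1 : pr 1 = 1 := by simp [pr]
  have hfix : ∀ s t, Φ (pr s) (ra t) = ra t → Φ (pr s) (ra t) / ra t = exp 0 := by
    intro s t h
    rw [h, div_self (hrm t), exp_zero]
  obtain ⟨L, ⟨hL0, hL⟩, -⟩ := isCoveringMapOn_exp.existsUnique_continuousMap_lifts
    ⟨_, hH⟩ (a₀ := (0, 0)) (e₀ := 0) (hfix 0 0 (by rw [p0]; exact h0 (hrm 0))).symm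
    fun p => div_ne_zero ((hs _ (hpm p.1)).1.2.1 (hrm p.2)) (hrm p.2)
  have hL' : ∀ s t, exp (L (s, t)) = Φ (pr s) (ra t) / ra t := fun s t => congrFun hL (s, t)
  have a1 : (fun t => L (0, t)) = fun _ => 0 :=
    lift_eq (by fun_prop) continuous_const
      (fun t => (hL' 0 t).trans (hfix 0 t (by rw [p0]; exact h0 (hrm t)))) 0 hL0
  have a2 : ∀ t, ra t ∉ K → L (1, t) = 0 := by
    intro t ht
    have : (fun s => L (s, t)) = fun _ => 0 :=
      lift_eq (by fun_prop) continuous_const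
        (fun s => (hL' s t).trans (hfix s t ((hs _ (hpm s)).2 _ (hrm t) ht))) 0 (congrFun a1 t)
    exact congrFun this 1
  have hlog : ContinuousOn (fun z : ℂ => |Real.log ‖z‖|) K :=
    (continuous_norm.continuousOn.log fun z hz => norm_ne_zero_iff.2 (hKM hz)).abs
  obtain ⟨C, hC⟩ := hK.exists_bound_of_continuousOn hlog
  have hout : ∀ t, C < |t| → ra t ∉ K := by
    intro t ht hk
    have := hC _ hk
    simp only [ra, norm_real, Real.norm_eq_abs, abs_abs, Real.abs_exp, Real.log_exp] at this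
    linarith
  set T : ℝ := |C| + 1 with hT
  have hT1 : 1 ≤ T := by have := abs_nonneg C; linarith
  have hTC : C < T := by have := le_abs_self C; linarith
  have hns : ∀ t, normSq (ra t) = Real.exp t * Real.exp t := fun t => normSq_ofReal _
  have a3 : (fun t => L (1, t)) = fun t => I * (th (normSq (ra t)) : ℂ) := by
    refine lift_eq (by fun_prop) (continuous_const.mul (continuous_ofReal.comp
      (th_smooth.continuous.comp (continuous_normSq.comp hra)))) (fun t => ?_) (-T) ?_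
    · rw [hL', p1, h1 (hrm t), tw, mul_div_assoc, div_self (hrm t), mul_one]
    · have h2 : Real.exp (-T) ≤ 1 := Real.exp_le_one_iff.2 (by linarith)
      show L (1, -T) = I * (th (normSq (ra (-T))) : ℂ)
      rw [a2 _ (hout _ (by rwa [abs_neg, abs_of_pos (by linarith)])), hns,
        th_lo (mul_le_one₀ h2 (Real.exp_pos _).le h2)]
      simp
  have a4 : L (1, T) = I * (th (normSq (ra T)) : ℂ) := congrFun a3 T
  have h2 : 2 ≤ Real.exp T := by linarith [Real.add_one_le_exp T]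
  rw [a2 _ (hout _ (by rwa [abs_of_pos (by linarith)])), hns, th_hi (by nlinarith)] at a4
  simp at a4

theorem result : ∃ φ : ℂ → ℂ, SympC φ ∧ ¬ SympC0 φ ∧
    ∃ ψ : ℕ → ℂ → ℂ, (∀ n, SympC (ψ n) ∧ SympC0 (ψ n)) ∧ TendstoUniformlyOn ψ φ atTop M :=
  ⟨tw th, phi_mem, phi_not, fun n => tw (be n), fun n => ⟨psi_mem' n, psi_mem n⟩, psi_lim⟩

end Pool.Agent.Results.MP_2dff6e_gt.Twist
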